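import Pool.Agent.Y823.LR.Fam

/-!
# Lang's lower bound for rational linear forms fails for every `n ≥ 5` and every `ε < 1 / 14`

The frozen statement `S17760` (proved in the starting files) disproves Lang's inequality for
`ε = 1 / 32`, with one family of `6` terms.  Here every number `n ≥ 5` of terms and every `ε < 1 / 14` is
treated, by a new family with five terms.
-/

set_option autoImplicit false

open Finset Filter

namespace Pool.Agent.Results.MP_90c6bd_nt.EveryNumberOfTerms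

/-- `Λ = ∑ b_j log a_j` -/
noncomputable def form {n : ℕ} (a : Fin n → ℚ) (b : Fin n → ℤ) : ℝ :=
  ∑ j, ((b j : ℤ) : ℝ) * Real.log ((a j : ℚ) : ℝ)

/-- the product of all `B_j = max (|b_j|, 1)` and all `A_j ^ 2`, where `A_j` is the maximum of the
numerator and the denominator of `a_j > 0` -/
noncomputable def size {n : ℕ} (a : Fin n → ℚ) (b : Fin n → ℤ) : ℝ :=
  (∏ j, ((max (b j).natAbs 1 : ℕ) : ℝ)) *
    (∏ j, (((max (a j).num.natAbs (a j).den : ℕ)) : ℝ) ^ 2)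

/-- `B = max B_j` -/
noncomputable def maxB {n : ℕ} (b : Fin n → ℤ) : ℝ :=
  ((Finset.univ.sup fun j => max (b j).natAbs 1 : ℕ) : ℝ)

/-- For every `n ≥ 5`:
(1) there is `K` such that there are positive rational numbers `a_j` and nonzero integers `b_j` with
arbitrarily large `X = ∏ B_j A_j ^ 2`, with `Λ ≠ 0` and `|Λ| ≤ K B / X ^ (15 / 14)`;
(2) for all `ε < 1 / 14` and `C > 0` there are positive rational numbers `a_j` and nonzero integers `b_j`
with arbitrarily large `X`, with `Λ ≠ 0` and `|Λ| < C ^ n B / X ^ (1 + ε)`. -/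
theorem result (n : ℕ) (hn : 5 ≤ n) :
    (∃ K : ℝ, ∀ H : ℝ, ∃ (a : Fin n → ℚ) (b : Fin n → ℤ), (∀ j, 0 < a j) ∧ (∀ j, b j ≠ 0) ∧
      H < size a b ∧ form a b ≠ 0 ∧ |form a b| ≤ K * maxB b / size a b ^ (15 / 14 : ℝ)) ∧
    (∀ ε C H : ℝ, ε < 1 / 14 → 0 < C → ∃ (a : Fin n → ℚ) (b : Fin n → ℤ), (∀ j, 0 < a j) ∧
      (∀ j, b j ≠ 0) ∧ H < size a b ∧ form a b ≠ 0 ∧
      |form a b| < C ^ n * maxB b / size a b ^ (1 + ε)) := by
  have main : ∀ H : ℝ, ∃ (a : Fin n → ℚ) (b : Fin n → ℤ), (∀ j, 0 < a j) ∧ (∀ j, b j ≠ 0) ∧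
      H < size a b ∧ form a b ≠ 0 ∧
      |form a b| ≤ (10 ^ 137) ^ 2 * maxB b / size a b ^ (15 / 14 : ℝ) := by
    intro H
    obtain ⟨k, rfl⟩ : ∃ k, n = 5 + k := ⟨n - 5, by omega⟩
    obtain ⟨N, hN⟩ := exists_nat_gt H
    obtain ⟨t, ht⟩ : ∃ t : ℤ, t = max (N : ℤ) (10 ^ 9) := ⟨_, rfl⟩
    have ht9 : 10 ^ 9 ≤ t := by rw [ht]; exact le_max_right _ _
    have htN : (N : ℤ) ≤ t := by rw [ht]; exact le_max_left _ _
    have htN' : (N : ℝ) ≤ (t : ℝ) := by exact_mod_cast htN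
    obtain ⟨h1, h2, h3, h4, h5⟩ := Pool.Agent.Y823.LR.core k t ht9
    exact ⟨Pool.Agent.Y823.LR.aP k t, Pool.Agent.Y823.LR.bP k t, h1, h2,
      lt_of_lt_of_le (hN.trans_le htN') h4, h3, h5⟩
  refine ⟨⟨_, main⟩, fun ε C H hε hC => ?_⟩
  have hlim := (tendsto_rpow_atTop (show (0 : ℝ) < 1 / 14 - ε by linarith)).eventually_gt_atTop
    ((10 ^ 137) ^ 2 / C ^ n)
  obtain ⟨T, hT⟩ := Filter.eventually_atTop.1 hlim
  obtain ⟨a, b, h1, h2, h3, h4, h5⟩ := main (max (max H T) 1)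
  have hX1 : 1 < size a b := lt_of_le_of_lt (le_max_right _ _) h3
  have hXH : H < size a b := lt_of_le_of_lt ((le_max_left _ _).trans (le_max_left _ _)) h3
  have hXT : T < size a b := lt_of_le_of_lt ((le_max_right _ _).trans (le_max_left _ _)) h3
  have hX0 : 0 < size a b := one_pos.trans hX1
  refine ⟨a, b, h1, h2, hXH, h4, lt_of_le_of_lt h5 ?_⟩
  have h6 := hT _ hXT.le
  have hCn : 0 < C ^ n := by positivity
  rw [div_lt_iff₀ hCn] at h6
  have hB : 0 < maxB b := by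
    have e0 : 1 ≤ (Finset.univ.sup fun j => max (b j).natAbs 1) := by
      have e1 : max (b ⟨0, by omega⟩).natAbs 1 ≤ (Finset.univ.sup fun j => max (b j).natAbs 1) :=
        Finset.le_sup (f := fun j => max (b j).natAbs 1) (Finset.mem_univ _)
      exact le_trans (le_max_right _ _) e1
    unfold maxB
    exact_mod_cast e0
  have e1 : size a b ^ (15 / 14 : ℝ) = size a b ^ (1 + ε) * size a b ^ (1 / 14 - ε) := by
    rw [← Real.rpow_add hX0]
    congr 1
    ring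
  have p1 : 0 < size a b ^ (1 + ε) := Real.rpow_pos_of_pos hX0 _
  have p2 : 0 < size a b ^ (15 / 14 : ℝ) := Real.rpow_pos_of_pos hX0 _
  rw [div_lt_div_iff₀ p2 p1, e1]
  calc (10 ^ 137) ^ 2 * maxB b * size a b ^ (1 + ε)
      < (size a b ^ (1 / 14 - ε) * C ^ n) * maxB b * size a b ^ (1 + ε) := by gcongr
    _ = C ^ n * maxB b * (size a b ^ (1 + ε) * size a b ^ (1 / 14 - ε)) := by ring

end Pool.Agent.Results.MP_90c6bd_nt.EveryNumberOfTerms
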